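import Pool.Agent.Lib.UPrep.Lab
import Pool.Agent.Lib.UPrep.Rlo

/-!
# Co: a condition below `i` followed by an element of a block at `i`

`i'` is the successor of `i` in `O`.

PROOF. `co_lo`: `Adm`: `ina` (`hi`, `hlB`, `D.zb`; at the other coordinates that of `t`); `eas j`: the maximum of the bound for `t` and, if `i < j`, `i'` (`i' < j`: `ina_lim` gives `k`
with `i < k < j`, so `i' ≤ k`); `bd`: the maximum of the bound of `t` and `i'`. Goodness at `i`: `hl`, `ha`. Support below `i'`: `hi'`. `co_le`: (→) the clauses of `lr` at `k < i` (values of `t'` are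
at coordinates `< i`; `rs (Iio k) (co i ℓ t a) = rs (Iio k) t` for `k ≤ i`) and at `i` (`rs (Iio i) (co i ℓ t a) = t`); (←) the same.
-/

set_option autoImplicit false
universe u

namespace Pool.Agent.URf

open Cardinal Pool.Agent.PolF Pool.Agent.UlM Pool.Agent.UPrep

variable {O : Type u} [LinearOrder O] [WellFoundedLT O] {dec : O → O → Code O} {B : O → O}

open Classical in
/-- `t` with the value `(ℓ, a)` at `i` -/
noncomputable def co (i ℓ : O) (t : Raw O) (a : O) : Raw O :=
  fun k => if k = i then some (ℓ, a) else t k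

theorem co_at (i ℓ : O) (t : Raw O) (a : O) : co i ℓ t a i = some (ℓ, a) := by
  simp [co]

theorem co_ne {i k : O} (h : k ≠ i) (ℓ : O) (t : Raw O) (a : O) : co i ℓ t a k = t k := by
  simp [co, h]

theorem co_lo (D : DecH dec B) {i i' ℓ : O} (hi : Ina i) (hi' : ∀ k, k < i' ↔ k ≤ i)
    (hl : Gd dec B i ℓ) (hlB : ℓ < B i) {t : Raw O} (ht : t ∈ Lo dec B i) {a : O}
    (ha : a ∈ (dec i ℓ).Z) : co i ℓ t a ∈ Lo dec B i' := by
  have hii : i < i' := (hi' i).2 le_rfl
  obtain ⟨⟨h1, h2⟩, h3⟩ := ht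
  refine ⟨⟨⟨fun j l b hb => ?_, fun i0 hi0 => ?_, ?_⟩, fun k m b hb => ?_⟩, fun k hk => ?_⟩
  · by_cases hj : j = i
    · subst hj
      rw [co_at] at hb
      obtain ⟨rfl, rfl⟩ := Prod.mk.inj (Option.some.inj hb)
      exact ⟨hi, hlB, D.zb _ _ ha⟩
    · rw [co_ne hj] at hb
      exact h1.ina j l b hb
  · obtain ⟨b, hb, h5⟩ := h1.eas i0 hi0
    by_cases hlt : i < i0
    · obtain ⟨k, hk1, hk2⟩ := (ina_lim hi0).2 i hlt
      have hk3 : i' ≤ k := not_lt.1 (fun h => absurd ((hi' k).1 h) (not_le.2 hk1))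
      refine ⟨max b i', max_lt hb (hk3.trans_lt hk2), fun j hj hji => ?_⟩
      by_cases hj' : j = i
      · subst hj'
        exact lt_max_of_lt_right hii
      · rw [co_ne hj'] at hj
        exact lt_max_of_lt_left (h5 j hj hji)
    · refine ⟨b, hb, fun j hj hji => ?_⟩
      by_cases hj' : j = i
      · subst hj'
        exact absurd hji hlt
      · rw [co_ne hj'] at hj
        exact h5 j hj hji
  · obtain ⟨b, h5⟩ := h1.bd
    refine ⟨max b i', fun j hj => ?_⟩
    by_cases hj' : j = i
    · subst hj'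
      exact lt_max_of_lt_right hii
    · rw [co_ne hj'] at hj
      exact lt_max_of_lt_left (h5 j hj)
  · by_cases hj : k = i
    · subst hj
      rw [co_at] at hb
      obtain ⟨rfl, rfl⟩ := Prod.mk.inj (Option.some.inj hb)
      exact ⟨hl, ha⟩
    · rw [co_ne hj] at hb
      exact h2 k m b hb
  · by_cases hj : k = i
    · subst hj
      exact hii
    · rw [co_ne hj] at hk
      exact (h3 k hk).trans hii

theorem co_rs {i ℓ : O} {t : Raw O} (ht : t ∈ Lo dec B i) (a : O) :
    rs (Set.Iio i) (co i ℓ t a) = t := by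
  funext k
  by_cases hk : k < i
  · have h1 : rs (Set.Iio i) (co i ℓ t a) k = co i ℓ t a k := by
      unfold rs
      exact if_pos hk
    rw [h1, co_ne hk.ne]
  · have h1 : rs (Set.Iio i) (co i ℓ t a) k = none := by
      unfold rs
      exact if_neg hk
    have h2 : t k = none := by
      by_contra h3
      exact hk (ht.2 k h3)
    rw [h1, h2]

theorem co_eta {i i' ℓ : O} (hi' : ∀ k, k < i' ↔ k ≤ i) {g : Raw O} (hg : g ∈ Lo dec B i') {a : O}
    (ha : g i = some (ℓ, a)) : co i ℓ (rs (Set.Iio i) g) a = g := by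
  funext k
  by_cases hk : k = i
  · subst hk
    rw [co_at, ha]
  · rw [co_ne hk]
    by_cases hlt : k < i
    · unfold rs
      exact if_pos hlt
    · have h2 : g k = none := by
        by_contra h3
        exact hk (le_antisymm ((hi' k).1 (hg.2 k h3)) (not_lt.1 hlt))
      rw [h2]
      unfold rs
      exact if_neg hlt

theorem co_le {i ℓ : O} {t t' : Raw O} (ht : t ∈ Lo dec B i) (ht' : t' ∈ Lo dec B i) (a a' : O) :
    lr dec (co i ℓ t a) (co i ℓ t' a') ↔ lr dec t t' ∧ (dec i ℓ).R t a a' := by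
  have key : ∀ j, j ≤ i → rs (Set.Iio j) (co i ℓ t a) = rs (Set.Iio j) t := by
    intro j hj
    have h1 := rs_Iio_rs hj (co i ℓ t a)
    rw [co_rs ht a] at h1
    exact h1.symm
  constructor
  · intro h
    constructor
    · intro j l b hb
      have hj : j < i := ht'.2 j (by rw [hb]; exact Option.some_ne_none _)
      obtain ⟨a0, ha0, hR⟩ := h j l b (by rw [co_ne hj.ne]; exact hb)
      rw [co_ne hj.ne] at ha0
      rw [key j hj.le] at hR
      exact ⟨a0, ha0, hR⟩
    · obtain ⟨a0, ha0, hR⟩ := h i ℓ a' (co_at i ℓ t' a')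
      rw [co_at] at ha0
      obtain ⟨-, rfl⟩ := Prod.mk.inj (Option.some.inj ha0)
      rw [co_rs ht a] at hR
      exact hR
  · rintro ⟨h1, h2⟩ j l b hb
    by_cases hj : j = i
    · subst hj
      rw [co_at] at hb
      obtain ⟨rfl, rfl⟩ := Prod.mk.inj (Option.some.inj hb)
      refine ⟨a, co_at j _ t a, ?_⟩
      rw [co_rs ht a]
      exact h2
    · rw [co_ne hj] at hb
      have hj' : j < i := ht'.2 j (by rw [hb]; exact Option.some_ne_none _)
      obtain ⟨a0, ha0, hR⟩ := h1 j l b hb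
      refine ⟨a0, by rw [co_ne hj]; exact ha0, ?_⟩
      rw [key j hj'.le]
      exact hR

end Pool.Agent.URf
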