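import Pool.Agent.Lib.URf.Co
import Pool.Agent.Lib.UMst.Defs

/-!
# Exd: the preparation at a coordinate `i`

`T = TT i` is the set of the conditions with support below `i`, `H = HH i ℓ` the set of the conditions with label `ℓ` at `i`, `ρ = rr i` the restriction, `v = vv` the element of
`V` coded by the value at `i`.

PROOF. `vv_eq`: definition. `ext_a` (`rT rl vV mono`): `rs_lo`, `lr_rs_self`, `vv_eq`; `mono`: let `t ∈ H`, `t i = some (ℓ, b)`, `t' ≤ t`: `t' i = some (ℓ, a)` with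
`(dec i ℓ).R (rs (Iio i) t') a b`; `hz` turns it into `R (ρ t') (v t') (v t)`; `lr_rs`. `ext_gl`: `g = gl i' (co i ℓ t' (z a)) (rs (Ici i') t)` (`gl_pk`, `co_lo`); it is `≤ t = gl i' (rs (Iio i') t) (rs (Ici i') t)` (`gl_rs`) by `lr_gl`:
`rs (Iio i') t = co i ℓ (rs (Iio i) t) b` (`co_eta`, `rs_Iio_rs`), `co_le`, `hz`, and `lr_refl`. `rs (Iio i) g = rs (Iio i) (co ..) = t'` (`rs_gl_lo`, `rs_Iio_rs`, `co_rs`), `g i = some (ℓ, z a)`.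
`ext_st`: the condition `co i ℓ t (z a)` (in `Pk`).
-/

set_option autoImplicit false
universe u

namespace Pool.Agent.URf

open Cardinal Pool.Agent.PolF Pool.Agent.UlM Pool.Agent.UPrep Pool.Agent.UMst

variable {O : Type u} [LinearOrder O] [WellFoundedLT O] {dec : O → O → Code O} {B : O → O}

/-- conditions with support below `i` -/
def TT (dec : O → O → Code O) (B : O → O) (i : O) : Set ↥(Pk dec B) :=
  {g | ∀ k, g.1 k ≠ none → k < i}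

/-- conditions with label `ℓ` at `i` -/
def HH (dec : O → O → Code O) (B : O → O) (i ℓ : O) : Set ↥(Pk dec B) :=
  {g | ∃ a, g.1 i = some (ℓ, a)}

/-- restriction -/
noncomputable def rr (i : O) (g : ↥(Pk dec B)) : ↥(Pk dec B) :=
  ⟨rs (Set.Iio i) g.1, (rs_lo g.2 i).1⟩

variable {A : Type u} [Nonempty A] {V : Set A} {i ℓ : O}

open Classical in
/-- the element of `V` coded by the value at `i` -/
noncomputable def vv (z : ↥V ≃ ↥(dec i ℓ).Z) (g : ↥(Pk dec B)) : A :=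
  if h : ∃ a, g.1 i = some (ℓ, a) ∧ a ∈ (dec i ℓ).Z then (z.symm ⟨h.choose, h.choose_spec.2⟩).1
  else Classical.arbitrary A

theorem vv_eq (z : ↥V ≃ ↥(dec i ℓ).Z) (g : ↥(Pk dec B)) {a : O} (h : g.1 i = some (ℓ, a))
    (ha : a ∈ (dec i ℓ).Z) : vv z g = (z.symm ⟨a, ha⟩).1 := by
  have h1 : ∃ a, g.1 i = some (ℓ, a) ∧ a ∈ (dec i ℓ).Z := ⟨a, h, ha⟩
  have h2 : vv z g = (z.symm ⟨h1.choose, h1.choose_spec.2⟩).1 := dif_pos h1
  have h3 : h1.choose = a := by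
    have h4 := h.symm.trans h1.choose_spec.1
    exact (Prod.mk.inj (Option.some.inj h4)).2.symm
  rw [h2]
  congr 2
  exact Subtype.ext h3

theorem vv_z (z : ↥V ≃ ↥(dec i ℓ).Z) (g : ↥(Pk dec B)) (a : ↥V)
    (h : g.1 i = some (ℓ, (z a).1)) : vv z g = a.1 := by
  rw [vv_eq z g h (z a).2]
  have h1 : (⟨(z a).1, (z a).2⟩ : ↥(dec i ℓ).Z) = z a := rfl
  rw [h1, Equiv.symm_apply_apply]

section
variable (D : DecH dec B) (hi : Ina i) (hl : Gd dec B i ℓ) (hlB : ℓ < B i)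
  {R : ↥(Pk dec B) → A → A → Prop} (z : ↥V ≃ ↥(dec i ℓ).Z)
  (hz : ∀ (t : ↥(Pk dec B)), t ∈ TT dec B i → ∀ a b : ↥V,
    ((dec i ℓ).R t.1 (z a).1 (z b).1 ↔ R t a.1 b.1))

theorem ext_rT (t : ↥(Pk dec B)) : rr i t ∈ TT dec B i := by
  exact (rs_lo t.2 i).2

theorem ext_rl (t : ↥(Pk dec B)) : lP dec B t (rr i t) := by
  exact lr_rs_self t.2 i

theorem ext_vV (t : ↥(Pk dec B)) (ht : t ∈ HH dec B i ℓ) : vv z t ∈ V := by
  obtain ⟨a, h⟩ := ht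
  rw [vv_eq z t h (t.2.2 i ℓ a h).2]
  exact (z.symm _).2

include hz in
theorem ext_mono (t : ↥(Pk dec B)) (ht : t ∈ HH dec B i ℓ) (t' : ↥(Pk dec B)) (h : lP dec B t' t) :
    t' ∈ HH dec B i ℓ ∧ lP dec B (rr i t') (rr i t) ∧ R (rr i t') (vv z t') (vv z t) := by
  obtain ⟨b, hb⟩ := ht
  obtain ⟨a, ha, hR⟩ := h i ℓ b hb
  refine ⟨⟨a, ha⟩, lr_rs i h, ?_⟩
  rw [vv_eq z t hb (t.2.2 i ℓ b hb).2, vv_eq z t' ha (t'.2.2 i ℓ a ha).2]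
  rw [← hz (rr i t') (ext_rT t') (z.symm ⟨a, (t'.2.2 i ℓ a ha).2⟩)
    (z.symm ⟨b, (t.2.2 i ℓ b hb).2⟩), Equiv.apply_symm_apply, Equiv.apply_symm_apply]
  exact hR

include D hi hl hlB hz in
theorem ext_gl {i' : O} (hi' : ∀ k, k < i' ↔ k ≤ i) (t : ↥(Pk dec B)) (ht : t ∈ HH dec B i ℓ)
    (t' : ↥(Pk dec B)) (ht' : t' ∈ TT dec B i) (a : A) (ha : a ∈ V) (h : lP dec B t' (rr i t))
    (hR : R t' a (vv z t)) :
    ∃ g ∈ HH dec B i ℓ, lP dec B g t ∧ rr i g = t' ∧ vv z g = a := by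
  obtain ⟨b, hb⟩ := ht
  have hbZ := (t.2.2 i ℓ b hb).2
  have hii : i < i' := (hi' i).2 le_rfl
  have ht'l : t'.1 ∈ Lo dec B i := ⟨t'.2, ht'⟩
  have hco : co i ℓ t'.1 (z ⟨a, ha⟩).1 ∈ Lo dec B i' :=
    co_lo D hi hi' hl hlB ht'l (z ⟨a, ha⟩).2
  have hhi : rs (Set.Ici i') t.1 ∈ Hi dec B i' := rs_hi t.2 i'
  have hg : gl i' (co i ℓ t'.1 (z ⟨a, ha⟩).1) (rs (Set.Ici i') t.1) ∈ Pk dec B := gl_pk hco hhi
  have hgi : gl i' (co i ℓ t'.1 (z ⟨a, ha⟩).1) (rs (Set.Ici i') t.1) i =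
      some (ℓ, (z ⟨a, ha⟩).1) := by
    unfold gl
    rw [if_pos hii, co_at]
  refine ⟨⟨_, hg⟩, ⟨_, hgi⟩, ?_, ?_, vv_z z ⟨_, hg⟩ ⟨a, ha⟩ hgi⟩
  · show lr dec (gl i' (co i ℓ t'.1 (z ⟨a, ha⟩).1) (rs (Set.Ici i') t.1)) t.1
    have hlo : rs (Set.Iio i') t.1 ∈ Lo dec B i' := rs_lo t.2 i'
    have h1 : lr dec (gl i' (co i ℓ t'.1 (z ⟨a, ha⟩).1) (rs (Set.Ici i') t.1))
        (gl i' (rs (Set.Iio i') t.1) (rs (Set.Ici i') t.1)) := by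
      refine (lr_gl hco hlo hhi hhi).2 ⟨?_, lr_refl hg⟩
      have h2 : rs (Set.Iio i') t.1 i = some (ℓ, b) := by
        unfold rs
        rw [if_pos (show i ∈ Set.Iio i' from hii), hb]
      have h3 := co_eta (ℓ := ℓ) hi' hlo h2
      rw [← h3, rs_Iio_rs hii.le]
      refine (co_le ht'l (rs_lo t.2 i) _ _).2 ⟨h, ?_⟩
      have h4 := (hz t' ht' ⟨a, ha⟩ (z.symm ⟨b, hbZ⟩)).2
      rw [Equiv.apply_symm_apply] at h4
      refine h4 ?_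
      rw [← vv_eq z t hb hbZ]
      exact hR
    rwa [gl_rs] at h1
  · refine Subtype.ext ?_
    show rs (Set.Iio i) (gl i' (co i ℓ t'.1 (z ⟨a, ha⟩).1) (rs (Set.Ici i') t.1)) = t'.1
    rw [rs_Iio_gl hii.le, co_rs ht'l]

include D hi hl hlB in
theorem ext_st (t : ↥(Pk dec B)) (ht : t ∈ TT dec B i) (a : A) (ha : a ∈ V) {i' : O}
    (hi' : ∀ k, k < i' ↔ k ≤ i) :
    ∃ g ∈ HH dec B i ℓ, (∀ k, k ≠ i → g.1 k = t.1 k) ∧ rr i g = t ∧ vv z g = a := by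
  have htl : t.1 ∈ Lo dec B i := ⟨t.2, ht⟩
  have hco : co i ℓ t.1 (z ⟨a, ha⟩).1 ∈ Lo dec B i' :=
    co_lo D hi hi' hl hlB htl (z ⟨a, ha⟩).2
  refine ⟨⟨_, hco.1⟩, ⟨_, co_at i ℓ t.1 _⟩, fun k hk => co_ne hk ℓ t.1 _, ?_,
    vv_z z ⟨_, hco.1⟩ ⟨a, ha⟩ (co_at i ℓ t.1 _)⟩
  exact Subtype.ext (co_rs htl _)

end

end Pool.Agent.URf
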