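import Pool.Agent.Lib.URf.Exd

/-!
# Exr: reduction of names to `D`, and `Ext` for the preparation

PROOF. `mem_iso`: (→) `Mem c y (φ w)` and `w₁ ≤ w` give `Mem c y (φ w₁)` (`Mem_down`), so `w₁` is in the set. (←) `Mem_loc`: let `q ≤ φ w`; `q = φ w₁` (`hd`), `w₁ ≤ w` (`ho`); there are `w₂ ≤ w₁` and `w₃ ≥ w₂` with
`Mem c y (φ w₃)`, so `Mem c y (φ w₂)` and `φ w₂ ≤ q`.
`ext_red`: `red_lo` at `β = i'`: `#Y ≤ nu < #O`; if `Ina j`, `i' ≤ j`, then `i < j`, so there is `k` with `i < k < j` (`ina_lim`), `i' ≤ k < j`; `#Y ≤ nu < #(Iio j)`. It gives `g' ≤ t`, `pLo i' g' = pLo i' t` and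
`c'' : Y → Set ↥(Lo dec B i')`. Let `φ : ↥(DD T V) → ↥(Lo dec B i')`, `φ w = co i ℓ w.1.1.1 (z ⟨w.1.2, _⟩)` (`co_lo`), `c' y = {w | Mem (lL i') c'' y (φ w)}`, `mem_iso` for `φ`: `ho` is `co_le` with `hz`; `hd`: a `q ≤ φ w` has a value `(ℓ, a)` at `i`, `a ∈ (dec i ℓ).Z`, so
`q = co i ℓ (rs (Iio i) q) a` (`co_eta`). For `h ≤ g'` and `w.1 = (ρ h, v h)` (`h ∈ HH`, as `h ≤ t`): `pLo i' h = φ w` (`co_eta`, `vv_eq`). `ρ g' = ρ t`, `v g' = v t`: `rs (Iio i) g' = rs (Iio i) (rs (Iio i') g')` (`rs_Iio_rs`) and the value at `i` is that of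
`rs (Iio i') g'`.
`ext_prep`: the fields from Exd.lean; `exists i'`: `ex_succ`, `inO_noMax`.
-/

set_option autoImplicit false
universe u

namespace Pool.Agent.URf

open Cardinal Pool.Agent.PolF Pool.Agent.UlM Pool.Agent.UPrep Pool.Agent.UMst

theorem mem_iso {Q Q' Y : Type u} {le : Q → Q → Prop} {le' : Q' → Q' → Prop}
    (hr : ∀ p, le p p) (ht : ∀ p q r, le p q → le q r → le p r) (hr' : ∀ p, le' p p)
    (φ : Q' → Q) (ho : ∀ w w', le (φ w) (φ w') ↔ le' w w') (hd : ∀ w q, le q (φ w) → ∃ w', φ w' = q)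
    (c : Y → Set Q) (y : Y) (w : Q') :
    Mem le c y (φ w) ↔ Mem le' (fun y => {w | Mem le c y (φ w)}) y w := by
  constructor
  · intro h w1 hw1
    exact ⟨w1, hr' _, w1, Mem_down ht ((ho _ _).2 hw1) h, hr' _⟩
  · intro h
    refine Mem_loc ht hr fun q hq => ?_
    obtain ⟨w1, rfl⟩ := hd w q hq
    obtain ⟨w2, hw2, w3, hw3, hw23⟩ := h w1 ((ho _ _).1 hq)
    exact ⟨φ w2, (ho _ _).2 hw2, Mem_down ht ((ho _ _).2 hw23) hw3⟩

variable {O : Type u} [LinearOrder O] [WellFoundedLT O] {dec : O → O → Code O} {B : O → O}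
  {A : Type u} [Nonempty A] {V : Set A} {i ℓ : O}

theorem ext_red (hO : InO O) (D : DecH dec B) (hi : Ina i) (hl : Gd dec B i ℓ) (hlB : ℓ < B i)
    {R : ↥(Pk dec B) → A → A → Prop} (z : ↥V ≃ ↥(dec i ℓ).Z)
    (hz : ∀ (t : ↥(Pk dec B)), t ∈ TT dec B i → ∀ a b : ↥V,
      ((dec i ℓ).R t.1 (z a).1 (z b).1 ↔ R t a.1 b.1))
    {nu : Cardinal.{u}} (hnO : nu < #O) (hn : ∀ j, Ina j → i < j → nu < #(Set.Iio j))
    {i' : O} (hi' : ∀ k, k < i' ↔ k ≤ i) (Y : Type u) (hY : #Y ≤ nu) (c : Y → Set ↥(Pk dec B))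
    (t : ↥(Pk dec B)) (ht : t ∈ HH dec B i ℓ) : ∃ t', lP dec B t' t ∧ rr i t' = rr i t ∧
      vv z t' = vv z t ∧ ∃ c' : Y → Set ↥(DD (TT dec B i) V), ∀ h, lP dec B h t' →
        ∀ w : ↥(DD (TT dec B i) V), w.1 = (rr i h, vv z h) → ∀ y, (Mem (lP dec B) c y h ↔
          Mem (leD (le2 (lP dec B) R) (DD (TT dec B i) V)) c' y w) := by
  have hν : ∀ j, Ina j → i' ≤ j → i' < j ∧ #Y < #(Set.Iio j) := by
    intro j hj hij
    have h1 : i < j := lt_of_lt_of_le ((hi' i).2 le_rfl) hij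
    obtain ⟨k, hk1, hk2⟩ := (ina_lim hj).2 i h1
    have h2 : i' ≤ k := by
      by_contra hc
      exact absurd ((hi' k).1 (not_le.1 hc)) (not_le.2 hk1)
    exact ⟨lt_of_le_of_lt h2 hk2, hY.trans_lt (hn j hj h1)⟩
  obtain ⟨g', hg', hpl, c'', hc''⟩ := red_lo hO D i' (hY.trans_lt hnO) hν c t
  have hle : i ≤ i' := ((hi' i).2 le_rfl).le
  have hraw : rs (Set.Iio i') g'.1 = rs (Set.Iio i') t.1 := congrArg Subtype.val hpl
  have hat : g'.1 i = t.1 i := by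
    have h1 := congrFun hraw i
    simpa [rs, (hi' i).2 le_rfl] using h1
  have hrs : rs (Set.Iio i) g'.1 = rs (Set.Iio i) t.1 := by
    rw [← rs_Iio_rs hle g'.1, hraw, rs_Iio_rs hle]
  obtain ⟨a0, ha0⟩ := ht
  have ha0Z : a0 ∈ (dec i ℓ).Z := (t.2.2 i ℓ a0 ha0).2
  -- the isomorphism
  have hlo : ∀ w : ↥(DD (TT dec B i) V), w.1.1.1 ∈ Lo dec B i := fun w =>
    ⟨w.1.1.2, w.2.1⟩
  let φ : ↥(DD (TT dec B i) V) → ↥(Lo dec B i') := fun w =>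
    ⟨co i ℓ w.1.1.1 (z ⟨w.1.2, w.2.2⟩).1, co_lo D hi hi' hl hlB (hlo w) (z ⟨w.1.2, w.2.2⟩).2⟩
  have ho : ∀ w w', lL dec B i' (φ w) (φ w') ↔ leD (le2 (lP dec B) R) (DD (TT dec B i) V) w w' := by
    intro w w'
    have h1 := co_le (dec := dec) (B := B) (ℓ := ℓ) (hlo w) (hlo w') (z ⟨w.1.2, w.2.2⟩).1
      (z ⟨w'.1.2, w'.2.2⟩).1
    have h2 := hz w.1.1 w.2.1 ⟨w.1.2, w.2.2⟩ ⟨w'.1.2, w'.2.2⟩
    exact h1.trans (and_congr Iff.rfl h2)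
  have key : ∀ h : ↥(Pk dec B), ∀ a (ha : h.1 i = some (ℓ, a)) (haZ : a ∈ (dec i ℓ).Z)
      (w : ↥(DD (TT dec B i) V)), w.1 = (rr i h, vv z h) → φ w = pLo i' h := by
    intro h a ha haZ w hw
    apply Subtype.ext
    have e1 : w.1.1.1 = rs (Set.Iio i) h.1 := by
      have := congrArg (fun v : ↥(Pk dec B) × A => v.1.1) hw
      exact this
    have e2 : (⟨w.1.2, w.2.2⟩ : ↥V) = z.symm ⟨a, haZ⟩ := by
      apply Subtype.ext
      have h2 : w.1.2 = vv z h := congrArg (fun v : ↥(Pk dec B) × A => v.2) hw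
      rw [← vv_eq z h ha haZ]
      exact h2
    show co i ℓ w.1.1.1 (z ⟨w.1.2, w.2.2⟩).1 = rs (Set.Iio i') h.1
    rw [e1, e2, Equiv.apply_symm_apply]
    have h3 : (rs (Set.Iio i') h.1) i = some (ℓ, a) := by
      have : i < i' := (hi' i).2 le_rfl
      simpa [rs, this] using ha
    have h4 := co_eta hi' (rs_lo h.2 i') h3
    rw [rs_Iio_rs hle] at h4
    exact h4
  have hd : ∀ w q, lL dec B i' q (φ w) → ∃ w', φ w' = q := by
    intro w q hq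
    have h1 : (φ w).1 i = some (ℓ, (z ⟨w.1.2, w.2.2⟩).1) := co_at i ℓ _ _
    obtain ⟨a, ha, -⟩ := hq i ℓ _ h1
    have haZ : a ∈ (dec i ℓ).Z := (q.2.1.2 i ℓ a ha).2
    let w' : ↥(DD (TT dec B i) V) := ⟨(⟨rs (Set.Iio i) q.1, rs_pk q.2.1 _⟩,
      (z.symm ⟨a, haZ⟩).1), (rs_lo q.2.1 i).2, (z.symm ⟨a, haZ⟩).2⟩
    refine ⟨w', Subtype.ext ?_⟩
    show co i ℓ (rs (Set.Iio i) q.1) (z ⟨(z.symm ⟨a, haZ⟩).1, (z.symm ⟨a, haZ⟩).2⟩).1 = q.1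
    have h2 : (z ⟨(z.symm ⟨a, haZ⟩).1, (z.symm ⟨a, haZ⟩).2⟩) = ⟨a, haZ⟩ := by
      rw [Subtype.coe_eta, Equiv.apply_symm_apply]
    rw [h2]
    exact co_eta hi' q.2 ha
  have hrD : ∀ p, leD (le2 (lP dec B) R) (DD (TT dec B i) V) p p := fun p =>
    (ho p p).1 (lL_refl i' _)
  refine ⟨g', hg', Subtype.ext hrs, ?_, fun y => {w | Mem (lL dec B i') c'' y (φ w)}, ?_⟩
  · rw [vv_eq z g' (hat.trans ha0) ha0Z, vv_eq z t ha0 ha0Z]
  · intro h hh w hw y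
    have h1 : h.1 i ≠ none ∧ ∃ a, h.1 i = some (ℓ, a) := by
      obtain ⟨a, ha, -⟩ := hh i ℓ a0 (hat.trans ha0)
      exact ⟨by rw [ha]; simp, a, ha⟩
    obtain ⟨-, a, ha⟩ := h1
    have haZ : a ∈ (dec i ℓ).Z := (h.2.2 i ℓ a ha).2
    rw [hc'' h hh y, ← key h a ha haZ w hw]
    exact mem_iso (lL_refl i') (lL_trans i') hrD φ ho hd c'' y w

theorem ext_prep (hO : InO O) (D : DecH dec B) (hi : Ina i) (hl : Gd dec B i ℓ) (hlB : ℓ < B i)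
    {R : ↥(Pk dec B) → A → A → Prop} (z : ↥V ≃ ↥(dec i ℓ).Z)
    (hz : ∀ (t : ↥(Pk dec B)), t ∈ TT dec B i → ∀ a b : ↥V,
      ((dec i ℓ).R t.1 (z a).1 (z b).1 ↔ R t a.1 b.1))
    {nu : Cardinal.{u}} (hnO : nu < #O) (hn : ∀ j, Ina j → i < j → nu < #(Set.Iio j)) :
    Ext (lP dec B) R (TT dec B i) V (HH dec B i ℓ) (rr i) (vv z) nu := by
  obtain ⟨i', hi'⟩ := ex_succ (inO_noMax hO) i
  exact
    { rT := fun t _ => ext_rT t
      rl := fun t _ => ext_rl t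
      vV := fun t ht => ext_vV z t ht
      mono := fun t ht t' h => ext_mono z hz t ht t' h
      gl := fun t ht t' ht' a ha h hR => ext_gl D hi hl hlB z hz hi' t ht t' ht' a ha h hR
      red := fun Y hY c t ht => ext_red hO D hi hl hlB z hz hnO hn hi' Y hY c t ht }

end Pool.Agent.URf
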