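import Pool.Agent.Lib.UMst.Defs
import Pool.Agent.Lib.UTop.Hgt
import Pool.Agent.Lib.UlM.Rst
import Pool.Agent.Lib.UlM.Run
import Pool.Agent.Lib.UlM.Mrf
import Pool.Agent.Lib.UlM.Rul

/-!
# Gxb: the reflected facts

PROOF. `dd_eq`: `tr_prod`. `gx_hg`: `closed_fun` for `q ↦ q.h`. `gx_hi`: for `z`, `y` let `F z y = (z.1, q')` with `q'` from `hgt` (`LQ`: `H.rf`, `(Ex).1`); `closed_fun2` for `F : Q → K → Q` (embeddings `eQ`, `eK`, `eQ`), `dd_eq`. `gx_cl`: the same with the choice of `z' ≤ z` and `y' > y` such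
that `Mem C y' z'` (from `hC.1 y` at `z ≤ p`: `Exi`), both functions. `gx_sel`: choose `z1`, `a` for every `z`, `y` for which they exist: `closed_fun2` for `(z, y) ↦ z1` and, for every `n`, for `(z, y) ↦ a n` (`hU.complete` with index type `ULift ℕ`, `ℵ₀ < κ`).
`gx_mS`: `mem_rf` (direction →), with `Tr eQ x = DD ..` (`dd_eq`; prove the statement for all `D` with `Tr eQ x = D` and `subst`). `gx_st`, `gx_un`: `stat_rf`, `uni_rf`, in the same way.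
-/

set_option autoImplicit false
universe u

namespace Pool.Agent.URf

open Cardinal Filter Pool.Agent.PolF Pool.Agent.UlM Pool.Agent.UTop Pool.Agent.UMst Pool.Agent.UlB

variable {κ : Cardinal.{u}} {W : Type u} {U : Ultrafilter (Set W)} (hU : NormalFine κ W U)
  {P K J : Type u} [LinearOrder K] [WellFoundedLT K] [LinearOrder J] [WellFoundedLT J]
  {le : P → P → Prop} {lam : Cardinal.{u}} {pd : J → Set J}
  {e : J → K × K → Set (P × Cn le lam K J)} {eP : P → W} (hP : Function.Injective eP)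
  {eA : Cn le lam K J → W} (hA : Function.Injective eA) {eK : K → W} (hK : Function.Injective eK)
  {eQ : P × Cn le lam K J → W} (hQ : Function.Injective eQ)
include hU hP hA hK hQ

omit hK in
theorem dd_eq : ∀ᶠ x in (U : Filter (Set W)), Tr eQ x = DD (Tr eP x) (Tr eA x) := by
  filter_upwards [tr_prod hU hP hA hQ] with x hx
  ext z
  exact hx z.1 z.2

omit hP hQ in
theorem gx_hg : ∀ᶠ x in (U : Filter (Set W)), ∀ q ∈ Tr eA x, q.h ∈ Tr eK x := by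
  filter_upwards [closed_fun hU (e' := eK) hA (fun q => q.h)] with x hx using hx

theorem gx_hi (H : TopH le K lam) (hpd : PdH pd) : ∀ᶠ x in (U : Filter (Set W)),
    ∀ z ∈ DD (Tr eP x) (Tr eA x), ∀ y ∈ Tr eK x, ∃ z' ∈ DD (Tr eP x) (Tr eA x),
      LQ pd e z' z ∧ y < z'.2.h := by
  have h0 : ∀ (z : P × Cn le lam K J) (y : K), ∃ z' : P × Cn le lam K J,
      LQ pd e z' z ∧ y < z'.2.h := by
    intro z y
    obtain ⟨q', h1, h2, -⟩ := hgt (pd := pd) (e := e) H hpd z.2 y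
    exact ⟨(z.1, q'), ⟨H.rf _, (h1 Set.univ).1 z.1⟩, h2⟩
  choose F hF1 hF2 using h0
  filter_upwards [dd_eq hU hP hA hQ, closed_fun2 hU (e'' := eQ) hQ hK F] with x h1 h2 z hz y hy
  rw [← h1] at hz ⊢
  exact ⟨F z y, h2 z hz y hy, hF1 z y, hF2 z y⟩

theorem gx_cl {C : K → Set (P × Cn le lam K J)} {p : P × Cn le lam K J}
    (hC : FClub (LQ pd e) C Set.univ p) : ∀ᶠ x in (U : Filter (Set W)),
    ∀ z ∈ DD (Tr eP x) (Tr eA x), LQ pd e z p → ∀ y ∈ Tr eK x, ∃ z' ∈ DD (Tr eP x) (Tr eA x),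
      LQ pd e z' z ∧ ∃ y' ∈ Tr eK x, y < y' ∧ Mem (LQ pd e) C y' z' := by
  have h0 : ∀ (z : {z : P × Cn le lam K J // LQ pd e z p}) (y : K), ∃ z', LQ pd e z' z.1 ∧
      ∃ y', y < y' ∧ Mem (LQ pd e) C y' z' := by
    intro z y
    obtain ⟨z', h1, ⟨y', _, hy⟩, h2⟩ := hC.1 y (Set.mem_univ _) z.1 z.2
    exact ⟨z', h1, y', hy, h2⟩
  choose F hF1 G hG1 hG2 using h0
  have hinj : Function.Injective (fun z : {z : P × Cn le lam K J // LQ pd e z p} => eQ z.1) :=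
    hQ.comp Subtype.val_injective
  filter_upwards [dd_eq hU hP hA hQ, closed_fun2 hU (e'' := eQ) hinj hK F,
    closed_fun2 hU (e'' := eK) hinj hK G] with x h1 h2 h3 z hz hzp y hy
  rw [← h1] at hz ⊢
  exact ⟨F ⟨z, hzp⟩ y, h2 ⟨z, hzp⟩ hz y hy, hF1 _ _, G ⟨z, hzp⟩ y, h3 ⟨z, hzp⟩ hz y hy,
    hG1 _ _, hG2 _ _⟩

theorem gx_sel (hκ : ℵ₀ < κ) : ∀ᶠ x in (U : Filter (Set W)),
    ∀ z ∈ DD (Tr eP x) (Tr eA x), ∀ y ∈ Tr eK x,
      (∃ z1, LQ pd e z1 z ∧ ∃ a, Mem le z1.2.s (y, a) z1.1) →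
      ∃ z' ∈ DD (Tr eP x) (Tr eA x), LQ pd e z' z ∧ ∃ a : ℕ → K, (∀ n, a n ∈ Tr eK x) ∧
        Mem le z'.2.s (y, a) z'.1 := by
  classical
  have h0 : ∀ (z : P × Cn le lam K J) (y : K), ∃ (z' : P × Cn le lam K J) (a : ℕ → K),
      (∃ z1, LQ pd e z1 z ∧ ∃ a, Mem le z1.2.s (y, a) z1.1) →
        LQ pd e z' z ∧ Mem le z'.2.s (y, a) z'.1 := by
    intro z y
    by_cases h : ∃ z1, LQ pd e z1 z ∧ ∃ a, Mem le z1.2.s (y, a) z1.1
    · obtain ⟨z1, h1, a, h2⟩ := h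
      exact ⟨z1, a, fun _ => ⟨h1, h2⟩⟩
    · exact ⟨z, fun _ => y, fun h' => absurd h' h⟩
  choose F A hFA using h0
  have hc := hU.complete (ULift.{u} ℕ)
    (fun n x => ∀ t ∈ Tr eQ x, ∀ t' ∈ Tr eK x, A t t' n.down ∈ Tr eK x)
    (by rw [Cardinal.mk_uLift, Cardinal.mk_nat, Cardinal.lift_aleph0]; exact hκ)
    (fun n => closed_fun2 hU (e'' := eK) hQ hK (fun z y => A z y n.down))
  filter_upwards [dd_eq hU hP hA hQ, closed_fun2 hU (e'' := eQ) hQ hK F, hc]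
    with x h1 h2 h3 z hz y hy hex
  rw [← h1] at hz ⊢
  exact ⟨F z y, h2 z hz y hy, (hFA z y hex).1, A z y, fun n => h3 ⟨n⟩ z hz y hy, (hFA z y hex).2⟩

theorem gx_mS (S : K → Set (P × Cn le lam K J)) : ∀ᶠ x in (U : Filter (Set W)),
    ∀ (y : ↥(Tr eK x)) (w : ↥(DD (Tr eP x) (Tr eA x))),
      Mem (leD (LQ pd e) (DD (Tr eP x) (Tr eA x))) (nmD (DD (Tr eP x) (Tr eA x)) (Tr eK x) S) y w →
        Mem (LQ pd e) S y.1 w.1 := by
  filter_upwards [dd_eq hU hP hA hQ, mem_rf hU hQ hK (LQ pd e) S] with x h1 h2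
  have h3 : ∀ D, Tr eQ x = D → ∀ (y : ↥(Tr eK x)) (w : ↥D),
      Mem (leD (LQ pd e) D) (nmD D (Tr eK x) S) y w → Mem (LQ pd e) S y.1 w.1 := by
    rintro _ rfl y w h
    exact (h2 y w).1 h
  exact h3 _ h1

theorem gx_st (cw : K → Prop) (S : K → Set (P × Cn le lam K J)) (h : FStatO (LQ pd e) cw S) :
    ∀ᶠ x in (U : Filter (Set W)), FStatO (leD (LQ pd e) (DD (Tr eP x) (Tr eA x)))
      (fun y : ↥(Tr eK x) => cw y.1) (nmD (DD (Tr eP x) (Tr eA x)) (Tr eK x) S) := by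
  filter_upwards [dd_eq hU hP hA hQ, stat_rf hU hQ hK (LQ pd e) cw S h] with x h1 h2
  have h3 : ∀ D, Tr eQ x = D → FStatO (leD (LQ pd e) D)
      (fun y : ↥(Tr eK x) => cw y.1) (nmD D (Tr eK x) S) := by
    rintro _ rfl
    exact h2
  exact h3 _ h1

theorem gx_un (S : K → Set (P × Cn le lam K J)) (A : K × K → Set (P × Cn le lam K J))
    (h : FUnK (LQ pd e) S A) : ∀ᶠ x in (U : Filter (Set W)),
    FUnK (leD (LQ pd e) (DD (Tr eP x) (Tr eA x))) (nmD (DD (Tr eP x) (Tr eA x)) (Tr eK x) S)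
      (nmD2 (DD (Tr eP x) (Tr eA x)) (Tr eK x) A) := by
  filter_upwards [dd_eq hU hP hA hQ, uni_rf hU hQ hK (LQ pd e) S A h] with x h1 h2
  have h3 : ∀ D, Tr eQ x = D → FUnK (leD (LQ pd e) D) (nmD D (Tr eK x) S)
      (nmD2 D (Tr eK x) A) := by
    rintro _ rfl
    exact h2
  exact h3 _ h1

end Pool.Agent.URf
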