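import Pool.Agent.Lib.UMst.Defs
import Pool.Agent.Lib.UlM.Crl

/-!
# Xfa: the trace of a good set on `λ⁺`

PROOF. Write `X = Tr eK x`. `#X ≤ #x < κ ≤ lam` (`hU.small`, `Tr eK x → x`, `y ↦ eK y`, is injective), so `X` is bounded (`H.bdd`); let `β` be the least strict upper bound of `X`. `ne`: a point of `K` is in `X` for
almost all `x` (`hU.fine`; `K` is nonempty by `H.bdd ∅`). `bc`: for `s : K → K` with `y < s y` (`H.bdd {y}`) `closed_fun`: if `b < β` then `b` is not a strict upper bound, so `b ≤ y` for some `y ∈ X`, and `b < s y ∈ X`. `ℵ₀ ≤ #X`: `X` is nonempty without largest element (or `tr_le`).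
`cw`: choose for every `y` with `∃ u, Lim u y` a sequence `c y`; `closed_nat` for `fun n y => c y n`.
`om`: suppose it fails; as `U` is an ultrafilter, for almost all `x` there are `u`, `y` with `Lim u y`, `u n ∈ X`, `y ∉ X`. Let `eN : ULift ℕ → W` be injective (`W` is infinite: `K` embeds in it and `K` is infinite);
`Tr eN x = univ` for almost all `x` (`hU.complete` with index type `ULift ℕ`, `ℵ₀ < κ`). `fun_ex` with `T = ULift ℕ`, `T' = K` and `φ x u := Tr eN x = univ ∧ (∀ n, u n ∈ X) ∧ ∃ y, Lim (fun n => u ⟨n⟩) y ∧ y ∉ X` gives one `u`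
which works for almost all `x`; the `y` with `Lim u y` is unique, and `y ∈ X` for almost all `x` (`hU.fine`), a contradiction.
-/

set_option autoImplicit false
universe u

namespace Pool.Agent.URf

open Cardinal Filter Pool.Agent.PolF Pool.Agent.UlM Pool.Agent.UTop

private theorem xfa_lim_unique {K : Type u} [LinearOrder K] {u : ℕ → K} {y y' : K}
    (h : Lim u y) (h' : Lim u y') : y = y' := by
  rcases lt_trichotomy y y' with hlt | heq | hgt
  · obtain ⟨n, hn⟩ := h'.2 y hlt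
    exact absurd (h.1 n) (not_lt.2 hn.le)
  · exact heq
  · obtain ⟨n, hn⟩ := h.2 y' hgt
    exact absurd (h'.1 n) (not_lt.2 hn.le)

private theorem xfa_om {κ : Cardinal.{u}} {W : Type u} {U : Ultrafilter (Set W)}
    (hU : NormalFine κ W U) (hκ : ℵ₀ < κ) {K : Type u} [LinearOrder K] [Infinite K] {eK : K → W}
    (hK : Function.Injective eK) : ∀ᶠ x in (U : Filter (Set W)),
      ∀ (u : ℕ → K) (y : K), Lim u y → (∀ n, u n ∈ Tr eK x) → y ∈ Tr eK x := by
  by_contra hcon
  have h1 := Ultrafilter.eventually_not.2 hcon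
  have hW : Infinite W := Infinite.of_injective eK hK
  let eN : ULift.{u} ℕ → W := fun n => Infinite.natEmbedding W n.down
  have heN : Function.Injective eN := by
    intro a b hab
    have := (Infinite.natEmbedding W).injective hab
    exact ULift.ext _ _ this
  have h2 : ∀ᶠ x in (U : Filter (Set W)), Tr eN x = Set.univ := by
    have h3 := hU.complete (ULift.{u} ℕ) (fun n x => n ∈ Tr eN x)
      (by rw [Cardinal.mk_uLift, Cardinal.mk_nat, Cardinal.lift_aleph0]; exact hκ)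
      (fun n => hU.fine (eN n))
    filter_upwards [h3] with x hx
    exact Set.eq_univ_of_forall hx
  obtain ⟨u, hu⟩ := fun_ex hU heN hK
    (fun x (f : ULift.{u} ℕ → K) => Tr eN x = Set.univ ∧
      ∃ y, Lim (fun n => f ⟨n⟩) y ∧ y ∉ Tr eK x)
    (by
      rintro x f g hfg ⟨hx, y, hy, hyx⟩
      have hfg' : f = g := by
        funext t
        exact hfg t (by rw [hx]; trivial)
      rw [← hfg']
      exact ⟨hx, y, hy, hyx⟩)
    (by
      filter_upwards [h1, h2] with x hx hx2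
      push Not at hx
      obtain ⟨u, y, hy, hu, hyx⟩ := hx
      exact ⟨fun n => u n.down, fun t _ => hu t.down, hx2, y, hy, hyx⟩)
  obtain ⟨x0, -, y0, hy0, -⟩ := hu.exists
  obtain ⟨x1, ⟨-, y1, hy1, hyx1⟩, hx1⟩ := (hu.and (hU.fine (eK y0))).exists
  rw [xfa_lim_unique hy1 hy0] at hyx1
  exact hyx1 hx1

theorem xfa {κ : Cardinal.{u}} {W : Type u} {U : Ultrafilter (Set W)} (hU : NormalFine κ W U)
    (hκ : ℵ₀ < κ) {P K : Type u} [LinearOrder K] [WellFoundedLT K] {le : P → P → Prop}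
    {lam : Cardinal.{u}} (H : TopH le K lam) (hl : κ ≤ lam) {eK : K → W}
    (hK : Function.Injective eK) : ∀ᶠ x in (U : Filter (Set W)), (∃ β : K,
      (Tr eK x).Nonempty ∧ (∀ y ∈ Tr eK x, y < β) ∧ (∀ b < β, ∃ y ∈ Tr eK x, b < y)) ∧
      (∀ (u : ℕ → K) (y : K), Lim u y → (∀ n, u n ∈ Tr eK x) → y ∈ Tr eK x) ∧
      (∀ y ∈ Tr eK x, (∃ u : ℕ → K, Lim u y) → ∃ u : ℕ → K, (∀ n, u n ∈ Tr eK x) ∧ Lim u y) ∧
      #(Tr eK x) ≤ lam ∧ ℵ₀ ≤ #(Tr eK x) := by
  classical
  obtain ⟨k0, -⟩ := H.bdd ∅ (by rw [Cardinal.mk_eq_zero]; exact zero_le)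
  have hs : ∀ y : K, ∃ b, y < b := by
    intro y
    obtain ⟨b, hb⟩ := H.bdd {y} (by
      rw [Cardinal.mk_singleton]
      exact Cardinal.one_le_aleph0.trans H.inf.le)
    exact ⟨b, hb y rfl⟩
  choose s hs using hs
  have hno : NoMaxOrder K := ⟨fun a => ⟨s a, hs a⟩⟩
  have hne : Nonempty K := ⟨k0⟩
  have hinf : Infinite K := inferInstance
  have hc : ∃ c : K → ℕ → K, ∀ y, (∃ u : ℕ → K, Lim u y) → Lim (c y) y := by
    refine ⟨fun y => if h : ∃ u : ℕ → K, Lim u y then h.choose else fun _ => k0, ?_⟩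
    intro y hy
    simp only [dif_pos hy]
    exact hy.choose_spec
  obtain ⟨c, hc⟩ := hc
  filter_upwards [hU.small, closed_fun hU hK (e' := eK) s, hU.fine (eK k0),
    closed_nat hU hκ hK (e' := eK) (fun n y => c y n), xfa_om hU hκ hK] with x hx1 hx2 hx3 hx4 hx5
  have hcard : #(Tr eK x) ≤ lam := by
    have h1 : #(Tr eK x) ≤ #x :=
      Cardinal.mk_le_of_injective (f := fun t : Tr eK x => (⟨eK t.1, t.2⟩ : x)) (by
        intro a b hab
        exact Subtype.ext (hK (congrArg Subtype.val hab)))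
    exact (h1.trans hx1.le).trans hl
  obtain ⟨b0, hb0⟩ := H.bdd (Tr eK x) hcard
  have hwf : WellFounded ((· < ·) : K → K → Prop) := wellFounded_lt
  have hB : {b : K | ∀ y ∈ Tr eK x, y < b}.Nonempty := ⟨b0, hb0⟩
  have hmem : k0 ∈ Tr eK x := hx3
  refine ⟨⟨hwf.min _ hB, ⟨k0, hmem⟩, hwf.min_mem _ hB, ?_⟩, hx5, ?_, hcard, ?_⟩
  · intro b hb
    by_contra hcon
    push Not at hcon
    have hbs : b ∈ {b : K | ∀ y ∈ Tr eK x, y < b} := by
      intro y hy
      by_contra hyb
      have h1 : b ≤ y := not_lt.1 hyb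
      have h2 := hcon (s y) (hx2 y hy)
      exact absurd (lt_of_le_of_lt h1 (hs y)) (not_lt.2 h2)
    exact hwf.not_lt_min _ hbs hb
  · intro y hy hu
    exact ⟨c y, fun n => hx4 n y hy, hc y hu⟩
  · rw [← Cardinal.infinite_iff, Set.infinite_coe_iff]
    intro hfin
    obtain ⟨a, ha, hmax⟩ := Set.exists_max_image (Tr eK x) id hfin ⟨k0, hmem⟩
    exact absurd (hs a) (not_lt.2 (hmax (s a) (hx2 a ha)))

end Pool.Agent.URf
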