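import Pool.Agent.Lib.URf.Gxb
import Pool.Agent.Lib.URf.Xfa

/-!
# Gxm: almost all traces are good
-/

set_option autoImplicit false
universe u

namespace Pool.Agent.URf

open Cardinal Filter Pool.Agent.PolF Pool.Agent.UlM Pool.Agent.UTop Pool.Agent.UMst Pool.Agent.UlB

theorem gx_all {κ : Cardinal.{u}} {W : Type u} {U : Ultrafilter (Set W)} (hU : NormalFine κ W U)
    (hκ : ℵ₀ < κ) {P K J : Type u} [LinearOrder K] [WellFoundedLT K] [LinearOrder J]
    [WellFoundedLT J] {le : P → P → Prop} {lam : Cardinal.{u}} {pd : J → Set J}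
    {e : J → K × K → Set (P × Cn le lam K J)} (H : TopH le K lam) (hpd : PdH pd) (hl : κ ≤ lam)
    (hst : FStatO (LQ pd e) (fun y => ∃ u : ℕ → K, Lim u y) (SN lam le K J))
    (hun : FUnK (LQ pd e) (SN lam le K J) (AN lam le K J))
    {eP : P → W} (hP : Function.Injective eP) {eA : Cn le lam K J → W}
    (hA : Function.Injective eA) {eK : K → W} (hK : Function.Injective eK)
    {eQ : P × Cn le lam K J → W} (hQ : Function.Injective eQ) :
    ∀ᶠ x in (U : Filter (Set W)), ∃ β : K,
      GX pd e (Tr eP x) (Tr eA x) (Tr eK x) β #(Tr eK x) := by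
  filter_upwards [xfa hU hκ H hl hK, gx_hg hU hA hK, gx_hi (e := e) hU hP hA hK hQ H hpd,
    gx_sel (pd := pd) (e := e) hU hP hA hK hQ hκ,
    gx_mS (pd := pd) (e := e) hU hP hA hK hQ (SN lam le K J),
    gx_st (pd := pd) (e := e) hU hP hA hK hQ _ _ hst,
    gx_un (pd := pd) (e := e) hU hP hA hK hQ _ _ hun, hU.small]
    with x h1 h2 h3 h4 h5 h6 h7 h8
  obtain ⟨⟨β, a1, a2, a3⟩, a4, a5, a6, a7⟩ := h1
  refine ⟨β, ?_⟩
  have hcV : #(Tr eA x) ≤ lam := by
    have h9 : #(Tr eA x) ≤ #x := Cardinal.mk_le_of_injective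
      (f := fun t : ↥(Tr eA x) => (⟨eA t.1, t.2⟩ : ↥x))
      (fun t s hts => Subtype.ext (hA (congrArg Subtype.val hts)))
    exact (h9.trans h8.le).trans hl
  exact
    { ne := a1
      lt := a2
      bc := a3
      om := a4
      hg := h2
      cw := a5
      cX := a6
      cV := hcV
      n0 := a7
      kn := le_rfl
      nl := a6
      hi := h3
      st := h6
      un := h7
      mS := h5
      sel := h4 }

end Pool.Agent.URf
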