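import Pool.Agent.Lib.UMst.Defs
import Pool.Agent.Lib.UlM.Tl
import Pool.Agent.Lib.UPrep.Rlo
import Pool.Agent.Lib.UPrep.Tail

/-!
# Sig: decreasing sequences have lower bounds

PROOF. `sig_two`: let `z n = (t n, a n)` be decreasing; `hs` gives `t` below all `t n`. `R t (a (n+1)) (a n)` (`down`). Define `b n` recursively with `X (b (n+1)) (b n)`,
`R t (b n) (a n)`, `R t (a n) (b n)`: `b 0 = a 0`; given `b n`: `R t (a (n+1)) (b n)` (`trans`), and `mix` gives `b (n+1)` with `X (b (n+1)) (b n)`, `R t (b (n+1)) (a (n+1))`,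
`R t (a (n+1)) (b (n+1))`. The set `{b n}` is a countable `X`-chain (`X (b m) (b n)` for `n ≤ m`, by `xtrans`, `xrefl`), `closed` gives `b` with `X b (b n)` for all `n`, so `R t b (b n)` (`xr`),
`R t b (a n)`, and `(t, b)` is below all `z n`.
`sig_prep`: let `β` be the least element of `O` (`O` is nonempty: `hO.unc`). Every element of `Lo dec B β` is the function `none`, so `Lo dec B β` is a subsingleton and `lL dec B β` has the property
trivially (`lL_refl`). `tail_tl` at `β` with `ν = ℵ₀`: if `Ina j` then `j ≠ β` (`ina_lim`: something is below `j`), and `ℵ₀ < #(Iio j)`. `sig_two` for `lL`, `RT`; transport by `pGl_eq`, `gl_le`: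
for a decreasing sequence `g n` in `Pk` the sequence `(pLo β (g n), pHi β (g n))` is decreasing for `le2`, and a lower bound `w` gives the lower bound `pGl β w.1 w.2`.
-/

set_option autoImplicit false
universe u

namespace Pool.Agent.URf

open Cardinal Pool.Agent.PolF Pool.Agent.UlM Pool.Agent.UPrep Pool.Agent.UMst

theorem sig_two {P Z : Type u} {le : P → P → Prop} {R : P → Z → Z → Prop} {X : Z → Z → Prop}
    {ν : Cardinal.{u}} (ht : ∀ p q r, le p q → le q r → le p r)
    (h : IsTl le R X ν) (hν : ℵ₀ ≤ ν) (hs : SgC le) : SgC (le2 le R) := by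
  classical
  intro z hz
  obtain ⟨t, htz⟩ := hs (fun n => (z n).1) (fun n => (hz n).1)
  have hR : ∀ n, R t (z (n + 1)).2 (z n).2 := fun n => h.down _ _ _ _ (htz (n + 1)) (hz n).2
  have step : ∀ n (b : Z), R t b (z n).2 ∧ R t (z n).2 b →
      ∃ b', X b' b ∧ R t b' (z (n + 1)).2 ∧ R t (z (n + 1)).2 b' := fun n b hb =>
    h.mix t _ b (h.trans _ _ _ _ (hR n) hb.2)
  choose! f hf using step
  let b : (n : ℕ) → {b : Z // R t b (z n).2 ∧ R t (z n).2 b} := fun n =>
    Nat.rec (motive := fun n => {b : Z // R t b (z n).2 ∧ R t (z n).2 b})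
      ⟨(z 0).2, h.refl _ _, h.refl _ _⟩ (fun n b => ⟨f n b.1, (hf n b.1 b.2).2⟩) n
  have hX1 : ∀ n, X (b (n + 1)).1 (b n).1 := fun n => (hf n (b n).1 (b n).2).1
  have hXm : ∀ n m, n ≤ m → X (b m).1 (b n).1 := by
    intro n m hnm
    induction m, hnm using Nat.le_induction with
    | base => exact h.xrefl _
    | succ m _ ih => exact h.xtrans _ _ _ (hX1 m) ih
  obtain ⟨c, hc⟩ := h.closed (Set.range fun n => (b n).1) ⟨_, 0, rfl⟩
    ((Set.countable_range _).le_aleph0.trans hν) (by
      rintro _ ⟨n, rfl⟩ _ ⟨m, rfl⟩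
      rcases le_total n m with hnm | hnm
      · exact Or.inr (hXm n m hnm)
      · exact Or.inl (hXm m n hnm))
  refine ⟨(t, c), fun n => ⟨htz n, ?_⟩⟩
  exact h.trans _ _ _ _ (h.xr _ _ _ (hc _ ⟨n, rfl⟩)) (b n).2.1

theorem sig_prep {O : Type u} [LinearOrder O] [WellFoundedLT O] {dec : O → O → Code O} {B : O → O}
    (hO : InO O) (D : DecH dec B) : SgC (lP dec B) := by
  have hne : Nonempty O := by
    rw [← Cardinal.mk_ne_zero_iff]
    exact (Cardinal.aleph0_pos.trans hO.unc).ne'
  obtain ⟨β, -, hβ⟩ := (wellFounded_lt : WellFounded ((· < ·) : O → O → Prop)).has_min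
    Set.univ Set.univ_nonempty
  have hLo : ∀ s t : ↥(Lo dec B β), s = t := by
    intro s t
    refine Subtype.ext (funext fun k => ?_)
    have h1 : s.1 k = none := by
      by_contra hk
      exact hβ k (Set.mem_univ _) (s.2.2 k hk)
    have h2 : t.1 k = none := by
      by_contra hk
      exact hβ k (Set.mem_univ _) (t.2.2 k hk)
    rw [h1, h2]
  have hsL : SgC (lL dec B β) := fun z _ => ⟨z 0, fun n => by
    rw [hLo (z n) (z 0)]
    exact lL_refl β _⟩
  have hT := tail_tl (ν := ℵ₀) hO D β hO.unc (by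
    intro j hj
    refine ⟨fun e => ?_, fun _ => hj.1.aleph0_lt⟩
    subst e
    obtain ⟨x, hx⟩ := (ina_lim hj).1
    exact absurd hx (hβ x (Set.mem_univ _)))
  have h2 := sig_two (lL_trans β) hT le_rfl hsL
  intro g hg
  obtain ⟨w, hw⟩ := h2 (fun n => (pLo β (g n), pHi β (g n))) (fun n => by
    rw [← gl_le]
    change lP dec B (pGl β (pLo β (g (n + 1))) (pHi β (g (n + 1))))
      (pGl β (pLo β (g n)) (pHi β (g n)))
    rw [pGl_eq, pGl_eq]
    exact hg n)
  refine ⟨pGl β w.1 w.2, fun n => ?_⟩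
  have h3 := (gl_le β w (pLo β (g n), pHi β (g n))).2 (hw n)
  change lP dec B (pGl β w.1 w.2) (pGl β (pLo β (g n)) (pHi β (g n))) at h3
  rwa [pGl_eq] at h3

end Pool.Agent.URf
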