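import Pool.Agent.Lib.URf.Exd
import Pool.Agent.Lib.UTop.Blk
import Pool.Agent.Lib.UlM.Rbl
import Pool.Agent.Lib.UlM.Inx
import Pool.Agent.Lib.UlM.Muc
import Pool.Agent.Lib.PolF.Sts

/-!
# Trp: traces of the preparation, and the label of the trace of the top block

PROOF. `tr_pk`: (1) for `g : ↥(Pk dec B)` choose `b g` above its support (`Adm.bd`); `closed_fun`: for almost all `x`, `b g ∈ Tr eO x = Iio i` for `g ∈ Tr eP x`, so `g ∈ TT dec B i`. (2) for `γ : O` the set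
`TT dec B γ` has fewer than `#O = κ` elements (`lo_card_lt_top`; it is in bijection with `Lo dec B γ`), so for almost all `x` all its elements are in `Tr eP x` (`hU.complete` with the index type `↥(TT dec B γ)`, `hU.fine`); `all_iff`:
for almost all `x`, `TT dec B γ ⊆ Tr eP x` for all `γ ∈ Tr eO x`. If `g ∈ TT dec B i` and `Ina i` then `Adm.eas i` gives `b < i` with `g ∈ TT dec B b`, and `b ∈ Iio i = Tr eO x`.
`tr_lab`: `blk_rf` for `hb` with `T = ULift`-free type `(mu κ).out` (`#T = mu κ`; `hW`: `#W = succ (succ (mu κ))`; `#(P × A) ≤ #W` by `hP`, `hb.size`), embedded in `W`; `tr_mu` gives `#(Tr eT x) = mu #(Tr eO x) = mu #(Iio i)`.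
`IsBlk.equiv` with the bijection `↥(Tr eP x) ≃ ↥(Lo dec B i)` (`Tr eP x = TT dec B i`; `g ↦ g.1`) gives `IsBlk (lL dec B i) (fun t a b => R ⟨t.1, t.2.1⟩ a.1 b.1) (leD X (Tr eA x)) (mu #(Iio i))` on `↥(Tr eA x)`; `lab`.
-/

set_option autoImplicit false
universe u

namespace Pool.Agent.URf

open Cardinal Filter Pool.Agent.PolF Pool.Agent.UlM Pool.Agent.UPrep Pool.Agent.UMst

variable {κ : Cardinal.{u}} {W : Type u} {U : Ultrafilter (Set W)} (hU : NormalFine κ W U)
  (hκ : κ.IsInaccessible) {dec : κ.ord.ToType → κ.ord.ToType → Code κ.ord.ToType}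
  {B : κ.ord.ToType → κ.ord.ToType} {eO : κ.ord.ToType → W} (hO : Function.Injective eO)
  {eP : ↥(Pk dec B) → W} (hP : Function.Injective eP)
include hU hκ hO hP

theorem tr_pk : ∀ᶠ x in (U : Filter (Set W)), ∀ i, Tr eO x = Set.Iio i → Ina i →
    Tr eP x = TT dec B i := by
  have hOI : InO κ.ord.ToType := InO_toType κ hκ
  have hb : ∀ g : ↥(Pk dec B), ∃ b, ∀ j, g.1 j ≠ none → j < b := fun g => g.2.1.bd
  choose b hb using hb
  have h2 : ∀ᶠ x in (U : Filter (Set W)), ∀ γ ∈ Tr eO x, TT dec B γ ⊆ Tr eP x := by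
    refine (all_iff hU hO _).2 fun γ => ?_
    have hc : #↥(TT dec B γ) < κ := by
      have h3 := lo_card_lt_top (dec := dec) (B := B) hOI γ
      rw [Cardinal.mk_ord_toType] at h3
      refine lt_of_le_of_lt ?_ h3
      refine Cardinal.mk_le_of_injective
        (f := fun g : ↥(TT dec B γ) => (⟨g.1.1, g.1.2, g.2⟩ : ↥(Lo dec B γ))) ?_
      intro a c h
      have h4 : a.1.1 = c.1.1 := congrArg (fun z : ↥(Lo dec B γ) => z.1) h
      exact Subtype.ext (Subtype.ext h4)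
    have h4 := hU.complete ↥(TT dec B γ) (fun g x => eP g.1 ∈ x) hc (fun g => hU.fine (eP g.1))
    filter_upwards [h4] with x hx g hg using hx ⟨g, hg⟩
  filter_upwards [closed_fun hU (e' := eO) hP b, h2] with x h3 h4 i hi hI
  apply Set.Subset.antisymm
  · intro g hg k hk
    have h5 : b g ∈ Tr eO x := h3 g hg
    rw [hi] at h5
    exact (hb g k hk).trans h5
  · intro g hg
    obtain ⟨c, hc, h5⟩ := g.2.1.eas i hI
    have h6 : c ∈ Tr eO x := by rw [hi]; exact hc
    exact h4 c h6 (fun k hk => h5 k hk (hg k hk))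

theorem tr_lab (D : DecH dec B) (hW : #W = Order.succ (Order.succ (mu κ))) {A : Type u}
    {R : ↥(Pk dec B) → A → A → Prop} {X : A → A → Prop} (hb : IsBlk (lP dec B) R X (mu κ))
    {eA : A → W} (hA : Function.Injective eA) :
    ∀ᶠ x in (U : Filter (Set W)), ∀ i, Tr eO x = Set.Iio i → Ina i →
      ∃ ℓ < B i, Gd dec B i ℓ ∧ ∃ z : ↥(Tr eA x) ≃ ↥(dec i ℓ).Z,
        ∀ t : ↥(Pk dec B), t ∈ TT dec B i → ∀ a b : ↥(Tr eA x),
          ((dec i ℓ).R t.1 (z a).1 (z b).1 ↔ R t a.1 b.1) := by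
  have hm : κ ≤ mu κ := le_mu κ
  have h0 : ℵ₀ ≤ mu κ := hκ.aleph0_lt.le.trans hm
  have hT : #((mu κ).out) = mu κ := Cardinal.mk_out _
  have hle2 : mu κ ≤ #W := by rw [hW]; exact (Order.le_succ _).trans (Order.le_succ _)
  have hle : #((mu κ).out) ≤ #W := by rw [hT]; exact hle2
  obtain ⟨eT⟩ := Cardinal.le_def _ _ |>.1 hle
  have hPW : #(↥(Pk dec B) × A) ≤ #W := by
    rw [Cardinal.mk_prod, Cardinal.lift_id, Cardinal.lift_id]
    calc #↥(Pk dec B) * #A ≤ #W * #W :=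
          mul_le_mul' (Cardinal.mk_le_of_injective hP) (Cardinal.mk_le_of_injective hA)
      _ = #W := Cardinal.mul_eq_self (h0.trans hle2)
  have h1 := blk_rf hU hP hA eT.injective (le := lP dec B) (R := R) (X := X)
    (by rw [hT]; exact h0) (by rw [hT, hW]) hPW (by rw [hT]; exact hb)
  have h2 := tr_mu hU hκ.aleph0_lt hO eT.injective (Cardinal.mk_ord_toType κ) hT
  filter_upwards [h1, h2, tr_pk hU hκ hO hP] with x h3 h4 h5 i hi hI
  have h6 : Tr eP x = TT dec B i := h5 i hi hI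
  rw [h4, hi] at h3
  have h7 : IsBlk (lL dec B i)
      (fun (t : ↥(Lo dec B i)) (a b : ↥(Tr eA x)) => R ⟨t.1, t.2.1⟩ a.1 b.1) (leD X (Tr eA x))
      (mu #(Set.Iio i)) := by
    refine IsBlk.equiv (f := ?_) (g := Equiv.refl _) ?_ ?_ ?_ h3
    · exact
        { toFun := fun g => ⟨g.1.1, g.1.2, (h6.subset g.2 : g.1 ∈ TT dec B i)⟩
          invFun := fun t => ⟨⟨t.1, t.2.1⟩, h6.superset t.2.2⟩
          left_inv := fun g => rfl
          right_inv := fun t => rfl }
    · exact fun a b => Iff.rfl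
    · exact fun t a b => Iff.rfl
    · exact fun a b => Iff.rfl
  obtain ⟨ℓ, hl, hg, z, hz, -⟩ := lab D hI h7
  exact ⟨ℓ, hl, hg, z, fun t ht a b => hz ⟨t.1, t.2, ht⟩ a b⟩

end Pool.Agent.URf
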