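import Pool.Agent.Lib.URf.Gxm
import Pool.Agent.Lib.URf.Exr
import Pool.Agent.Lib.URf.Sig
import Pool.Agent.Lib.URf.Trp
import Pool.Agent.Lib.UMst.Mst
import Pool.Agent.Lib.UFin.FoM

/-!
# Main: the reflection clause
-/

set_option autoImplicit false
universe u

namespace Pool.Agent.URf

open Cardinal Filter Pool.Agent.PolF Pool.Agent.UlM Pool.Agent.UTop Pool.Agent.UMst Pool.Agent.UlB
  Pool.Agent.UPrep Pool.Agent.UFin

theorem rfl_main {κ : Cardinal.{u}} (hκ : κ.IsInaccessible)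
    (hG : ∀ c : Cardinal.{u}, ℵ₀ ≤ c → (2 : Cardinal.{u}) ^ c = Order.succ c)
    {W : Type u} (hW : #W = Order.succ (Order.succ (mu κ)))
    {U : Ultrafilter (Set W)} (hU : NormalFine κ W U)
    {dec : OO κ → OO κ → Code (OO κ)} {B : OO κ → OO κ} (D : DecH dec B)
    {e : JJ κ → KK κ × KK κ → Set (↥(Pk dec B) × TB dec B)} (he : Bk e) {w0 : KK κ}
    (hw : LimI w0) (hw' : ∀ t < w0, ¬ LimI t) (C : KK κ → Set (↥(Pk dec B) × TB dec B))
    (p : ↥(Pk dec B) × TB dec B) (hC : FClub (LL dec B e) C (Set.univ : Set (KK κ)) p) :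
    ∃ q, LL dec B e q p ∧ ∃ b : KK κ, LimI b ∧
        Mem (LL dec B e) C b q ∧ FNcof (LL dec B e) (Set.Iio w0) b q ∧
        FStat (LL dec B e) (SN (mu κ) (lP dec B) (KK κ) (JJ κ)) (Set.Iio b) q := by
  have H : TopH (lP dec B) (KK κ) (mu κ) := topHP hκ hG
  have hGm : GamH (JJ κ) (mu κ) := gamH hκ hG
  have hb := blk (e := e) H pdI_H hGm
  have hinf : ℵ₀ ≤ mu κ := H.inf.le
  have hκm : κ ≤ mu κ := le_mu κ
  have hm2 : mu κ ≤ #W := by
    rw [hW]
    exact (Order.le_succ _).trans (Order.le_succ _)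
  have hcP : #↥(Pk dec B) ≤ #W := (pk_le hκ).trans (hκm.trans hm2)
  have hcO : #(OO κ) ≤ #W := by
    rw [Cardinal.mk_ord_toType]
    exact hκm.trans hm2
  have hcA : #(TB dec B) ≤ #W := by
    rw [hW]
    exact hb.size
  have hcK : #(KK κ) ≤ #W := by
    rw [hW, card_K H]
    exact Order.le_succ _
  have hcQ : #(↥(Pk dec B) × TB dec B) ≤ #W := by
    rw [Cardinal.mk_prod, Cardinal.lift_id, Cardinal.lift_id]
    exact (mul_le_mul' hcP hcA).trans (Cardinal.mul_eq_self (hinf.trans hm2)).le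
  have hcL : #((mu κ).out) ≤ #W := by
    rw [Cardinal.mk_out]
    exact hm2
  obtain ⟨eO⟩ := Cardinal.le_def _ _ |>.1 hcO
  obtain ⟨eP⟩ := Cardinal.le_def _ _ |>.1 hcP
  obtain ⟨eA⟩ := Cardinal.le_def _ _ |>.1 hcA
  obtain ⟨eK⟩ := Cardinal.le_def _ _ |>.1 hcK
  obtain ⟨eQ⟩ := Cardinal.le_def _ _ |>.1 hcQ
  obtain ⟨eL⟩ := Cardinal.le_def _ _ |>.1 hcL
  have hall := gx_all hU hκ.aleph0_lt (e := e) H pdI_H hκm (sts (e := e) H) (uni H hGm he)
    eP.injective eA.injective eK.injective eQ.injective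
  have hmu := tr_mu hU hκ.aleph0_lt eO.injective eL.injective (Cardinal.mk_ord_toType κ)
    (Cardinal.mk_out (mu κ))
  have hsu := tr_succ hU eL.injective eK.injective
    (by rw [Cardinal.mk_out]; exact hinf) (by rw [Cardinal.mk_out, card_K H])
  obtain ⟨x, h1, h2, h3, h4, h5, h6, h7, h8, h9⟩ := (hall.and ((tr_ina hU hκ eO.injective).and
    ((tr_pk hU hκ eO.injective eP.injective (dec := dec) (B := B)).and
    ((tr_lab hU hκ eO.injective eP.injective D hW hb eA.injective).and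
    ((gx_cl hU eP.injective eA.injective eK.injective eQ.injective hC).and
    (hmu.and (hsu.and ((hU.fine (eP p.1)).and (hU.fine (eA p.2)))))))))).exists
  obtain ⟨β, G⟩ := h1
  obtain ⟨i, hi, hIna⟩ := h2
  have hT : Tr eP x = TT dec B i := h3 i hi hIna
  obtain ⟨ℓ, hℓ, hgd, z, hz⟩ := h4 i hi hIna
  have hO := inO_kap hκ
  have hcx : #(Tr eK x) = Order.succ (mu #(Set.Iio i)) := by
    rw [h7, h6, hi]
  have hnO : #(Tr eK x) < #(OO κ) := by
    rw [hcx]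
    exact succ_lt_of_inO hO (mu_lt_of_inO hO (hO.iio i))
  have hn : ∀ j, Ina j → i < j → #(Tr eK x) < #(Set.Iio j) := by
    intro j hj hij
    rw [hcx]
    exact succ_lt_of_inO (InO_ina hj) (mu_lt hj (hj.2 i hij))
  have hne : Nonempty (TB dec B) := cnNe hκ hG
  have E := ext_prep hO D hIna hgd hℓ (R := fun t a b => Lq (pdI (JJ κ)) e Set.univ a b t) z hz
    hnO hn
  obtain ⟨i', hi'⟩ := ex_succ (inO_noMax hO) i
  have hp1 : p.1 ∈ TT dec B i := by
    rw [← hT]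
    exact h8
  obtain ⟨g, hg, -, hg1, hg2⟩ := ext_st D hIna hgd hℓ z p.1 hp1 p.2 h9 hi'
  rw [hT] at G h5
  obtain ⟨m, hm1, hm2, hm3, hm4, hm5⟩ := rfl_gx H pdI_H E G
    (sig_two lP_trans hb.tl hinf (sig_prep hO D)) hw hw' hC h5 hg (Prod.ext hg1 hg2)
  exact ⟨(g, m), hm1, β, hm2, hm3, hm4, hm5⟩

end Pool.Agent.URf
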